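import Pool.Agent.H37.CNS.Stmts

/-!
# Row PRU of board `cns`: normal subgroups with trivial intersection
-/

set_option autoImplicit false

namespace Pool.CND

open Finset

theorem pru_aux_H86 (h1 : S_QU1) (h2 : S_QCG) (p : ℕ) (k L G : Type) [Field k] [IsAlgClosed k]
    [Field L] [Algebra k L] [Group G] [Finite G] (ρ : G →* (L ≃ₐ[k] L)) (t : L) (N : Subgroup G)
    [N.Normal] (P : Place k L) (c : ℚ) (hp : p.Prime) (hk : CharP k p) (hcov : IsCover ρ t)
    (hPt : P.ord t < 0) (hcond : IsConductor P ρ c) (hc : c ≠ 0) (l : ℕ)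
    (hl : ram P ρ (l + 1) = {1}) (g : G) (hg : g ∈ ram P ρ l) (hgN : g ∉ N) :
    c ∈ Cond k (G ⧸ N) := by
  obtain ⟨E, ρ', t', hE, ht', hρ', hcov'⟩ := h1 k L G ρ t N hcov
  have hquo : Quo ρ ρ' (QuotientGroup.mk' N) E.val := by
    refine ⟨QuotientGroup.mk'_surjective N, ?_, ?_⟩
    · intro g y
      exact (hρ' g y).symm
    · intro z hz
      refine ⟨⟨z, (hE z).2 fun n hn => hz n ?_⟩, rfl⟩
      rw [QuotientGroup.mk'_apply, QuotientGroup.eq_one_iff]
      exact hn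
  have hjt : E.val t' = t := ht'
  have hcov2 : IsCover ρ (E.val t') := by rw [hjt]; exact hcov
  obtain ⟨P₁, e, he, hord, _, hlast⟩ := h2 p k L E G (G ⧸ N) ρ ρ' (QuotientGroup.mk' N) E.val t' P c
    hp hk hcov2 hcov' hquo hcond hc
  have ht0 : t' ≠ 0 := by
    intro h
    apply hcov'.trans
    rw [h]
    exact isAlgebraic_zero
  refine ⟨E, inferInstance, inferInstance, ρ', t', hcov', P₁, ?_, ?_⟩
  · have h3 := hord t' ht0
    rw [hjt] at h3
    by_contra hcon
    push Not at hcon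
    have h4 : (0 : ℤ) ≤ (e : ℤ) * P₁.ord t' := mul_nonneg (by positivity) hcon
    omega
  · refine hlast l hl ⟨g, hg, ?_⟩
    rw [QuotientGroup.mk'_apply, Ne, QuotientGroup.eq_one_iff]
    exact hgN

theorem pru_thm (h1 : S_QU1) (h2 : S_QCG) : S_PRU := by
  intro p k G _ _ _ _ N₁ N₂ _ _ c hp hk hN hc hc0
  obtain ⟨L, _, _, ρ, t, hcov, P, hPt, hcond⟩ := hc
  obtain ⟨l, hl, hl1, _⟩ := id hcond
  have h1mem : (1 : G) ∈ ram P ρ l := by
    refine ⟨fun x _ => ?_, fun u _ _ => Or.inl ?_⟩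
    · rw [map_one]; rfl
    · rw [map_one]; rfl
  obtain ⟨g, hg, hg1⟩ : ∃ g ∈ ram P ρ l, g ≠ 1 := by
    by_contra hcon
    push Not at hcon
    apply hl
    ext g
    constructor
    · intro hg
      exact hcon g hg
    · intro hg
      rw [Set.mem_singleton_iff] at hg
      rw [hg]
      exact h1mem
  by_cases hgN : g ∈ N₁
  · right
    have hgN2 : g ∉ N₂ := by
      intro h
      apply hg1
      have : g ∈ N₁ ⊓ N₂ := ⟨hgN, h⟩
      rw [hN] at this
      exact Subgroup.mem_bot.1 this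
    exact pru_aux_H86 h1 h2 p k L G ρ t N₂ P c hp hk hcov hPt hcond hc0 l hl1 g hg hgN2
  · left
    exact pru_aux_H86 h1 h2 p k L G ρ t N₁ P c hp hk hcov hPt hcond hc0 l hl1 g hg hgN

end Pool.CND
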